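import Pool.Agent.Helper68.SG2.GoalsC

/-!
# Project SG, stage 2: MONT (two variables, one block)
-/

set_option autoImplicit false

namespace Pool.Agent.Helper14.SG2

theorem t_MONT : Pool.Agent.Helper68.SG2.MONT := by
  intro g g' x y d d' k hg hg' hx hy hk h1 h2
  have hm : 1 ≤ min g g' := le_min hg hg'
  have hm0 : 0 ≤ min g g' := le_trans zero_le_one hm
  have h3 : (x * y * (min g g') ^ k) ^ 2 ≤ 1 := by
    calc (x * y * (min g g') ^ k) ^ 2 = x ^ 2 * y ^ 2 * (min g g') ^ (2 * k) := by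
          rw [pow_mul', mul_pow, mul_pow]
      _ ≤ x ^ 2 * y ^ 2 * (min g g') ^ (d + d') :=
          mul_le_mul_of_nonneg_left (pow_le_pow_right₀ hm hk) (by positivity)
      _ = (x ^ 2 * (min g g') ^ d) * (y ^ 2 * (min g g') ^ d') := by
          rw [pow_add]; ring
      _ ≤ (x ^ 2 * g ^ d) * (y ^ 2 * g' ^ d') := by
          have h4 : (min g g') ^ d ≤ g ^ d := pow_le_pow_left₀ hm0 (min_le_left _ _) d
          have h5 : (min g g') ^ d' ≤ g' ^ d' := pow_le_pow_left₀ hm0 (min_le_right _ _) d'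
          have h6 : x ^ 2 * (min g g') ^ d ≤ x ^ 2 * g ^ d :=
            mul_le_mul_of_nonneg_left h4 (sq_nonneg _)
          have h7 : y ^ 2 * (min g g') ^ d' ≤ y ^ 2 * g' ^ d' :=
            mul_le_mul_of_nonneg_left h5 (sq_nonneg _)
          exact mul_le_mul h6 h7 (by positivity) (by positivity)
      _ = 1 := by rw [h1, h2, one_mul]
  exact (abs_le.mp ((sq_le_one_iff_abs_le_one _).mp h3)).2

end Pool.Agent.Helper14.SG2
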